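import Pool.Graph.R_seed8.H275R3.OhMeas

/-!
# Hamiltonian isotopies of `ℂⁿ` acting on three coordinates
-/

set_option autoImplicit false

open Set Metric MeasureTheory
open scoped ContDiff ComplexConjugate Topology NNReal ENNReal

noncomputable section

namespace Pool.Agent.KS6_29.OH

open Pool.Agent.H275R3

variable {n : ℕ}

/-- `φ` is the flow of the compactly supported time-dependent Hamiltonian `H` on `ℂⁿ`. -/
def IsHamIsotopy (H : ℝ → EuclideanSpace ℂ (Fin n) → ℝ)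
    (φ : ℝ → EuclideanSpace ℂ (Fin n) → EuclideanSpace ℂ (Fin n)) : Prop :=
  ContDiff ℝ ((⊤ : ℕ∞) : WithTop ℕ∞) (Function.uncurry H) ∧
  HasCompactSupport (Function.uncurry H) ∧
  (∀ x, φ 0 x = x) ∧
  ∀ (t : ℝ) (x : EuclideanSpace ℂ (Fin n)), ∃ v : EuclideanSpace ℂ (Fin n),
    HasDerivAt (fun s => φ s x) v t ∧
    ∀ w : EuclideanSpace ℂ (Fin n), fderiv ℝ (H t) (φ t x) w = (inner ℂ v w).im

/-- the product torus with radii `r` -/
def torus (r : Fin n → ℝ) : Set (EuclideanSpace ℂ (Fin n)) := {z | ∀ j, ‖z j‖ = r j}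

/-- projection to three coordinates -/
def P (i : Fin 3 → Fin n) : EuclideanSpace ℂ (Fin n) →L[ℝ] E3 :=
  LinearMap.toContinuousLinearMap
    { toFun := fun z => WithLp.toLp 2 (fun k => z (i k))
      map_add' := fun a b => by ext k; simp
      map_smul' := fun c a => by ext k; simp }

@[simp] lemma P_apply (i : Fin 3 → Fin n) (z : EuclideanSpace ℂ (Fin n)) (k : Fin 3) :
    P i z k = z (i k) := rfl

/-- inclusion of three coordinates -/
def Q (i : Fin 3 → Fin n) : E3 →L[ℝ] EuclideanSpace ℂ (Fin n) :=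
  LinearMap.toContinuousLinearMap
    { toFun := fun v => ∑ k, EuclideanSpace.single (i k) (v k)
      map_add' := fun a b => by
        ext j
        simp only [WithLp.ofLp_sum, Finset.sum_apply, PiLp.single_apply, PiLp.add_apply]
        rw [← Finset.sum_add_distrib]
        refine Finset.sum_congr rfl fun k _ => ?_
        split_ifs <;> simp
      map_smul' := fun c a => by
        ext j
        simp only [WithLp.ofLp_sum, Finset.sum_apply, PiLp.single_apply, PiLp.smul_apply,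
          RingHom.id_apply]
        rw [Finset.smul_sum]
        refine Finset.sum_congr rfl fun k _ => ?_
        split_ifs <;> simp }

lemma Q_apply (i : Fin 3 → Fin n) (v : E3) : Q i v = ∑ k, EuclideanSpace.single (i k) (v k) := rfl

lemma Q_on {i : Fin 3 → Fin n} (hi : Function.Injective i) (v : E3) (k : Fin 3) :
    Q i v (i k) = v k := by
  rw [Q_apply]
  simp only [WithLp.ofLp_sum, Finset.sum_apply, PiLp.single_apply]
  rw [Finset.sum_eq_single k]
  · simp
  · intro b _ hb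
    rw [if_neg fun h => hb (hi h).symm]
  · simp

lemma Q_off {i : Fin 3 → Fin n} (v : E3) {j : Fin n} (hj : ∀ k, j ≠ i k) : Q i v j = 0 := by
  rw [Q_apply]
  simp only [WithLp.ofLp_sum, Finset.sum_apply, PiLp.single_apply]
  exact Finset.sum_eq_zero fun k _ => if_neg (hj k)

lemma PQ {i : Fin 3 → Fin n} (hi : Function.Injective i) (v : E3) : P i (Q i v) = v := by
  ext k
  rw [P_apply, Q_on hi]

lemma inner_Q (i : Fin 3 → Fin n) (v : E3) (w : EuclideanSpace ℂ (Fin n)) :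
    inner ℂ (Q i v) w = inner ℂ v (P i w) := by
  rw [Q_apply, sum_inner, PiLp.inner_apply]
  refine Finset.sum_congr rfl fun k _ => ?_
  rw [EuclideanSpace.inner_single_left, P_apply]
  simp [RCLike.inner_apply, mul_comm]

lemma ham_comp (i : Fin 3 → Fin n) {F3 : E3 → ℝ} (hF3 : ContDiff ℝ ∞ F3)
    {F : EuclideanSpace ℂ (Fin n) → ℝ} {z : EuclideanSpace ℂ (Fin n)}
    (h : F =ᶠ[𝓝 z] F3 ∘ P i) : ham F z = Q i (ham F3 (P i z)) := by
  refine (ham_unique F z _ fun w => ?_).symm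
  rw [h.fderiv_eq, fderiv_comp z ((hF3.differentiable (by simp)) _) (P i).differentiableAt,
    ContinuousLinearMap.fderiv, inner_Q, ← ham_spec]
  rfl

/-- bound for the integral curves -/
lemma norm_gam_le {N : ℝ} (hN : 10 ≤ N) {w u1 u2 : ℂ} (hw : ‖w‖ = 1) (h1 : ‖u1‖ = 1)
    (h2 : ‖u2‖ = 1) {t : ℝ} (ht : t ∈ Icc (0 : ℝ) 1) : ‖gam N w u1 u2 t‖ ≤ 2 * N ^ 3 := by
  have hr2 := rt_sq hN hw ht
  have hN0 : 0 < N := by linarith
  have h5 : ‖gam N w u1 u2 t‖ ^ 2 = (N ^ 3) ^ 2 + rt N w t ^ 2 := by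
    rw [EuclideanSpace.norm_sq_eq, Fin.sum_univ_three, gam]
    simp only [vec_zero, vec_one, vec_two]
    rw [norm_mul, norm_mul, norm_mul, norm_mul, h1, h2, mul_one, mul_one, mul_one,
      Complex.norm_real, Real.norm_eq_abs, sq_abs, ← Complex.normSq_eq_norm_sq,
      Complex.normSq_add_mul_I, hr2]
    ring
  have h6 : rt N w t ^ 2 ≤ (N ^ 3) ^ 2 := by
    rw [hr2]; nlinarith [sq_nonneg (Xt N w t), sq_nonneg (Yt N w t)]
  have h7 : 0 < N ^ 3 := by positivity
  nlinarith [norm_nonneg (gam N w u1 u2 t)]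

/-- the isotopy moving the torus with `r (i 0) = 1`, `r (i 1) = r (i 2) = √(N ^ 6 - 1)` -/
theorem exists_iso {N : ℝ} (hN : 10 ≤ N) {i : Fin 3 → Fin n} (hi : Function.Injective i)
    {r : Fin n → ℝ} (hr0 : r (i 0) = 1) {b : ℝ} (hb : b = √((N ^ 3) ^ 2 - 1))
    (hr1 : r (i 1) = b) (hr2 : r (i 2) = b) :
    ∃ (H : ℝ → EuclideanSpace ℂ (Fin n) → ℝ)
      (φ : ℝ → EuclideanSpace ℂ (Fin n) → EuclideanSpace ℂ (Fin n)), IsHamIsotopy H φ ∧
      φ 1 '' torus r ⊆ {y | (∃ w u1 u2 : ℂ, ‖w‖ = 1 ∧ ‖u1‖ = 1 ∧ ‖u2‖ = 1 ∧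
        P i y = gam N w u1 u2 1) ∧ ∀ j, (∀ k, j ≠ i k) → ‖y j‖ = r j} := by
  have hN0 : 0 < N := by linarith
  have hb0 : (1 : ℝ) ≤ (N ^ 3) ^ 2 - 1 := by
    have : (1000 : ℝ) ≤ N ^ 3 := by
      calc (1000 : ℝ) = 10 ^ 3 := by norm_num
        _ ≤ N ^ 3 := by gcongr
    nlinarith
  have hbpos : 0 < b := by rw [hb]; exact Real.sqrt_pos.2 (by linarith)
  obtain ⟨F3, hF3, -, hFG⟩ := exists_cut N (2 * N ^ 3) (Real.log N) (x0 N) hN0
  -- bound for everything
  obtain ⟨M, hM⟩ : ∃ M : ℝ, M = ‖Q i‖ * (2 * N ^ 3) + (∑ j, |r j| + ‖Q i‖ * (‖P i‖ * ∑ j, |r j|)) + 1 :=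
    ⟨_, rfl⟩
  have hsum : 0 ≤ ∑ j, |r j| := Finset.sum_nonneg fun j _ => abs_nonneg _
  have hM0 : 0 < M := by rw [hM]; positivity
  let χ : ContDiffBump (0 : EuclideanSpace ℂ (Fin n)) := ⟨M, M + 1, hM0, by linarith⟩
  let F : EuclideanSpace ℂ (Fin n) → ℝ := fun z => F3 (P i z) * χ z
  have hF : ContDiff ℝ ∞ F := (hF3.comp (P i).contDiff).mul χ.contDiff
  have hFc : HasCompactSupport F := χ.hasCompactSupport.mul_left
  have hloc : ∀ z : EuclideanSpace ℂ (Fin n), ‖z‖ < M → F =ᶠ[𝓝 z] F3 ∘ P i := by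
    intro z hz
    have : Metric.ball (0 : EuclideanSpace ℂ (Fin n)) M ∈ 𝓝 z :=
      Metric.isOpen_ball.mem_nhds (by simpa using hz)
    filter_upwards [this] with y hy
    have h1 : χ y = 1 := χ.one_of_mem_closedBall (Metric.ball_subset_closedBall hy)
    simp [F, h1]
  obtain ⟨H, φ, h1, h2, h3, h4, h5⟩ := exists_isotopy hF hFc
  refine ⟨H, φ, ⟨h1, h2, h3, h4⟩, ?_⟩
  rintro _ ⟨z, hz, rfl⟩
  have hz0 : ‖z (i 0)‖ = 1 := (hz _).trans hr0
  have hz1 : ‖z (i 1)‖ = b := (hz _).trans hr1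
  have hz2 : ‖z (i 2)‖ = b := (hz _).trans hr2
  set u1 : ℂ := z (i 1) / b with hu1
  set u2 : ℂ := z (i 2) / b with hu2
  set w : ℂ := z (i 0) * conj u1 * conj u2 with hw
  have n1 : ‖u1‖ = 1 := by
    rw [hu1, norm_div, hz1, Complex.norm_real, Real.norm_eq_abs, abs_of_pos hbpos,
      div_self hbpos.ne']
  have n2 : ‖u2‖ = 1 := by
    rw [hu2, norm_div, hz2, Complex.norm_real, Real.norm_eq_abs, abs_of_pos hbpos,
      div_self hbpos.ne']
  have nw : ‖w‖ = 1 := by
    rw [hw, norm_mul, norm_mul, RCLike.norm_conj, RCLike.norm_conj, hz0, n1, n2]; norm_num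
  have hbc : (b : ℂ) ≠ 0 := by exact_mod_cast hbpos.ne'
  have hg0 : gam N w u1 u2 0 = P i z := by
    have hX : Xt N w 0 = w.re := by rw [Xt]; simp
    have hY : Yt N w 0 = w.im := by rw [Yt]; simp
    have hr : rt N w 0 = b := by
      rw [rt, hX, hY, hb]
      congr 1
      have : w.re ^ 2 + w.im ^ 2 = 1 := by
        have := Complex.sq_norm w
        rw [nw, Complex.normSq_apply] at this
        nlinarith
      linarith
    have m1 : u1 * conj u1 = 1 := by
      rw [Complex.mul_conj, Complex.normSq_eq_norm_sq, n1]; simp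
    have m2 : u2 * conj u2 = 1 := by
      rw [Complex.mul_conj, Complex.normSq_eq_norm_sq, n2]; simp
    ext k
    fin_cases k
    · show (gam N w u1 u2 0) 0 = z (i 0)
      rw [gam, vec_zero, hX, hY, Complex.re_add_im, hw]
      calc z (i 0) * conj u1 * conj u2 * u1 * u2
          = z (i 0) * (u1 * conj u1) * (u2 * conj u2) := by ring
        _ = z (i 0) := by rw [m1, m2]; ring
    · show (gam N w u1 u2 0) 1 = z (i 1)
      rw [gam, vec_one, hr, hu1, mul_div_cancel₀ _ hbc]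
    · show (gam N w u1 u2 0) 2 = z (i 2)
      rw [gam, vec_two, hr, hu2, mul_div_cancel₀ _ hbc]
  -- the part of `z` in the other coordinates
  set z' : EuclideanSpace ℂ (Fin n) := z - Q i (P i z) with hz'
  have hnz : ‖z‖ ≤ ∑ j, |r j| := by
    calc ‖z‖ = ‖∑ j, EuclideanSpace.single j (z j)‖ := by
          congr 1
          ext k
          rw [WithLp.ofLp_sum, Finset.sum_apply, Finset.sum_eq_single k]
          · simp
          · intro b _ hb
            simp [hb.symm]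
          · simp
      _ ≤ ∑ j, ‖EuclideanSpace.single j (z j)‖ := norm_sum_le _ _
      _ ≤ ∑ j, |r j| := Finset.sum_le_sum fun j _ => by
          rw [EuclideanSpace.norm_single, hz j]; exact le_abs_self _
  have hnz' : ‖z'‖ ≤ ∑ j, |r j| + ‖Q i‖ * (‖P i‖ * ∑ j, |r j|) := by
    refine (norm_sub_le _ _).trans (add_le_add hnz ?_)
    refine ((Q i).le_opNorm _).trans ?_
    gcongr
    refine ((P i).le_opNorm _).trans ?_
    gcongr
  have hPz' : P i z' = 0 := by rw [hz', map_sub, PQ hi, sub_self]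
  have hcur := h5 z (fun t => Q i (gam N w u1 u2 t) + z') (by
    show Q i (gam N w u1 u2 0) + z' = z
    rw [hg0, hz']; abel) (by
    intro t ht
    have hn : ‖Q i (gam N w u1 u2 t) + z'‖ < M := by
      have := norm_gam_le hN nw n1 n2 ht
      calc _ ≤ ‖Q i (gam N w u1 u2 t)‖ + ‖z'‖ := norm_add_le _ _
        _ ≤ ‖Q i‖ * (2 * N ^ 3) + (∑ j, |r j| + ‖Q i‖ * (‖P i‖ * ∑ j, |r j|)) := by
            refine add_le_add (((Q i).le_opNorm _).trans ?_) hnz'
            gcongr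
        _ < M := by rw [hM]; linarith
    have hd := hasDerivAt_gam hN nw n1 n2 hFG ht
    have hP : P i (Q i (gam N w u1 u2 t) + z') = gam N w u1 u2 t := by
      rw [map_add, PQ hi, hPz', add_zero]
    show HasDerivAt _ (ham F (Q i (gam N w u1 u2 t) + z')) t
    rw [ham_comp i hF3 (hloc _ hn), hP]
    exact ((Q i).hasFDerivAt.comp_hasDerivAt t hd).add_const z')
  rw [hcur]
  refine ⟨⟨w, u1, u2, nw, n1, n2, ?_⟩, fun j hj => ?_⟩
  · show P i (Q i (gam N w u1 u2 1) + z') = _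
    rw [map_add, PQ hi, hPz', add_zero]
  · show ‖Q i (gam N w u1 u2 1) j + z' j‖ = r j
    have : z' j = z j := by
      show z j - Q i (P i z) j = z j
      rw [Q_off _ hj, sub_zero]
    rw [Q_off _ hj, zero_add, this, hz j]

end Pool.Agent.KS6_29.OH
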