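import Pool.Agent.KS6_29.OH.Volume

/-!
# Product tori with one small and two large equal radii
-/

set_option autoImplicit false

open Set Metric MeasureTheory
open scoped ContDiff ComplexConjugate Topology NNReal ENNReal Pointwise

noncomputable section

namespace Pool.Agent.KS6_29.OH

open Pool.Agent.H275R3

variable {n : ℕ}

theorem unit_case {i : Fin 3 → Fin n} (hi : Function.Injective i) {r : Fin n → ℝ}
    (hr : ∀ j, 0 < r j) (hr0 : r (i 0) = 1) {b : ℝ} (hb : 1000 ≤ b) (hr1 : r (i 1) = b)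
    (hr2 : r (i 2) = b) :
    ∃ (H : ℝ → EuclideanSpace ℂ (Fin n) → ℝ)
      (φ : ℝ → EuclideanSpace ℂ (Fin n) → EuclideanSpace ℂ (Fin n)), IsHamIsotopy H φ ∧
      μH[(n : ℝ)] (φ 1 '' torus r) ≤
        ENNReal.ofReal (2 * (18 * n * Real.pi) ^ n * (1 / b) ^ ((1 : ℝ) / 3) * ∏ j, (2 * r j)) := by
  have hb0 : 0 < b := by linarith
  obtain ⟨N, hN⟩ : ∃ N : ℝ, N = (b ^ 2 + 1) ^ ((1 : ℝ) / 6) := ⟨_, rfl⟩
  have hNp : 0 < N := by rw [hN]; positivity
  have hN6 : N ^ 6 = b ^ 2 + 1 := by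
    rw [hN, ← Real.rpow_natCast, ← Real.rpow_mul (by positivity)]
    norm_num
  have hN10 : 10 ≤ N := by
    by_contra h
    push Not at h
    have : N ^ 6 < 10 ^ 6 := by gcongr
    nlinarith
  have hbN : b = √((N ^ 3) ^ 2 - 1) := by
    rw [← pow_mul, show 3 * 2 = 6 from rfl, hN6, add_sub_cancel_right, Real.sqrt_sq hb0.le]
  obtain ⟨H, φ, h1, h2⟩ := exists_iso hN10 hi hr0 hbN hr1 hr2
  refine ⟨H, φ, h1, (measure_mono h2).trans ((moved_upper hN10 hi hr).trans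
    (ENNReal.ofReal_le_ofReal ?_))⟩
  obtain ⟨c, hc⟩ : ∃ c : ℝ, c = (1 / b) ^ ((1 : ℝ) / 3) := ⟨_, rfl⟩
  have hc0 : 0 < c := by rw [hc]; positivity
  have hc3 : c ^ 3 = 1 / b := by
    rw [hc, ← Real.rpow_natCast, ← Real.rpow_mul (by positivity)]
    norm_num
  have hNc : 1 ≤ N * c := by
    by_contra h
    push Not at h
    have h3 : (N * c) ^ 6 < 1 := pow_lt_one₀ (by positivity) h (by norm_num)
    have h4 : (N * c) ^ 6 = (b ^ 2 + 1) * (1 / b) ^ 2 := by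
      rw [mul_pow, hN6, ← hc3]; ring
    rw [h4] at h3
    have h5 : (b ^ 2 + 1) * (1 / b) ^ 2 = 1 + 1 / b ^ 2 := by field_simp
    rw [h5] at h3
    have : 0 < 1 / b ^ 2 := by positivity
    linarith
  have hprod : 0 < ∏ j, (2 * r j) := Finset.prod_pos fun j _ => by have := hr j; positivity
  have key : N ^ 5 / (r (i 0) * r (i 1) * r (i 2)) ≤ 2 * c := by
    rw [hr0, hr1, hr2, one_mul, div_le_iff₀ (by positivity)]
    have h6 : N ^ 5 * 1 ≤ N ^ 5 * (N * c) := by gcongr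
    have h7 : N ^ 5 * (N * c) = (b ^ 2 + 1) * c := by rw [← hN6]; ring
    have h8 : (b ^ 2 + 1) * c ≤ (2 * b ^ 2) * c := by
      gcongr
      nlinarith
    linarith
  rw [← hc]
  have : (18 * n * Real.pi) ^ n * (N ^ 5 / (r (i 0) * r (i 1) * r (i 2))) ≤
      (18 * n * Real.pi) ^ n * (2 * c) := by
    have hpi := Real.pi_pos
    gcongr
  calc _ ≤ (18 * n * Real.pi) ^ n * (2 * c) * ∏ j, (2 * r j) :=
        mul_le_mul_of_nonneg_right this hprod.le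
    _ = _ := by ring

/-- rescaling an isotopy -/
theorem IsHamIsotopy.scale {H : ℝ → EuclideanSpace ℂ (Fin n) → ℝ}
    {φ : ℝ → EuclideanSpace ℂ (Fin n) → EuclideanSpace ℂ (Fin n)} (h : IsHamIsotopy H φ) {a : ℝ}
    (ha : 0 < a) :
    IsHamIsotopy (fun t z => a ^ 2 * H t (a⁻¹ • z)) (fun t z => a • φ t (a⁻¹ • z)) := by
  obtain ⟨h1, h2, h3, h4⟩ := h
  have hne : a⁻¹ ≠ 0 := inv_ne_zero ha.ne'
  refine ⟨?_, ?_, fun x => ?_, fun t x => ?_⟩
  · have : ContDiff ℝ ((⊤ : ℕ∞) : WithTop ℕ∞)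
        (fun p : ℝ × EuclideanSpace ℂ (Fin n) => (p.1, a⁻¹ • p.2)) :=
      contDiff_fst.prodMk (contDiff_snd.const_smul a⁻¹)
    exact contDiff_const.mul (h1.comp this)
  · let L : ℝ × EuclideanSpace ℂ (Fin n) ≃ₜ ℝ × EuclideanSpace ℂ (Fin n) :=
      (Homeomorph.refl ℝ).prodCongr (Homeomorph.smulOfNeZero a⁻¹ hne)
    have := h2.comp_homeomorph L
    exact (this.mul_left (f := fun _ => a ^ 2))
  · show a • φ 0 (a⁻¹ • x) = x
    rw [h3, smul_inv_smul₀ ha.ne']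
  · obtain ⟨v, hv, hv'⟩ := h4 t (a⁻¹ • x)
    refine ⟨a • v, hv.const_smul a, fun w => ?_⟩
    have hd : Differentiable ℝ (H t) :=
      (h1.comp (contDiff_const.prodMk contDiff_id)).differentiable (by simp)
    have e1 : HasFDerivAt (fun z : EuclideanSpace ℂ (Fin n) => a⁻¹ • z)
        (a⁻¹ • ContinuousLinearMap.id ℝ _) (a • φ t (a⁻¹ • x)) :=
      (hasFDerivAt_id _).const_smul a⁻¹
    have e2 : HasFDerivAt (H t) (fderiv ℝ (H t) (φ t (a⁻¹ • x)))
        (a⁻¹ • (a • φ t (a⁻¹ • x))) := by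
      rw [inv_smul_smul₀ ha.ne']
      exact (hd _).hasFDerivAt
    have e3 := (e2.comp (a • φ t (a⁻¹ • x)) e1).const_mul (a ^ 2)
    have e4 : fderiv ℝ (fun z => a ^ 2 * H t (a⁻¹ • z)) (a • φ t (a⁻¹ • x)) =
        a ^ 2 • (fderiv ℝ (H t) (φ t (a⁻¹ • x))).comp (a⁻¹ • ContinuousLinearMap.id ℝ _) :=
      e3.fderiv
    show fderiv ℝ (fun z => a ^ 2 * H t (a⁻¹ • z)) (a • φ t (a⁻¹ • x)) w = _
    rw [e4]
    simp only [smul_apply, ContinuousLinearMap.comp_apply,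
      ContinuousLinearMap.id_apply, map_smul, smul_eq_mul]
    rw [hv', inner_smul_left_eq_smul, Complex.smul_im, smul_eq_mul]
    field_simp

theorem torus_smul {a : ℝ} (ha : 0 < a) (r : Fin n → ℝ) :
    torus (fun j => a * r j) = a • torus r := by
  ext z
  rw [Set.mem_smul_set_iff_inv_smul_mem₀ ha.ne']
  simp only [torus, Set.mem_ofPred_eq, PiLp.smul_apply, norm_smul, norm_inv, Real.norm_eq_abs,
    abs_of_pos ha]
  refine forall_congr' fun j => ?_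
  rw [inv_mul_eq_iff_eq_mul₀ ha.ne']

/-- **Main theorem.** -/
theorem main {i : Fin 3 → Fin n} (hi : Function.Injective i) {r : Fin n → ℝ}
    (hr : ∀ j, 0 < r j) (h12 : r (i 2) = r (i 1)) (hb : 1000 * r (i 0) ≤ r (i 1)) :
    ∃ (H : ℝ → EuclideanSpace ℂ (Fin n) → ℝ)
      (φ : ℝ → EuclideanSpace ℂ (Fin n) → EuclideanSpace ℂ (Fin n)), IsHamIsotopy H φ ∧
      μH[(n : ℝ)] (φ 1 '' torus r) ≤
        ENNReal.ofReal (2 * (18 * n * Real.pi) ^ n * (r (i 0) / r (i 1)) ^ ((1 : ℝ) / 3) *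
          ∏ j, (2 * r j)) := by
  obtain ⟨a, ha⟩ : ∃ a, a = r (i 0) := ⟨_, rfl⟩
  have ha0 : 0 < a := ha ▸ hr _
  obtain ⟨H, φ, h1, h2⟩ := unit_case (r := fun j => a⁻¹ * r j) hi
    (fun j => by have := hr j; positivity) (by rw [← ha, inv_mul_cancel₀ ha0.ne'])
    (b := a⁻¹ * r (i 1)) (by
      rw [← ha] at hb
      rw [← div_eq_inv_mul, le_div_iff₀ ha0]; exact hb) rfl (by rw [h12])
  refine ⟨_, _, h1.scale ha0, ?_⟩
  have e1 : (fun z => a • φ 1 (a⁻¹ • z)) '' torus r = a • (φ 1 '' torus fun j => a⁻¹ * r j) := by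
    have : torus r = a • torus (fun j => a⁻¹ * r j) := by
      rw [← torus_smul ha0]
      congr 1
      funext j
      rw [mul_inv_cancel_left₀ ha0.ne']
    rw [this, ← Set.image_smul, ← Set.image_smul, Set.image_image, Set.image_image]
    refine Set.image_congr fun z _ => ?_
    rw [inv_smul_smul₀ ha0.ne']
  show μH[(n : ℝ)] ((fun z => a • φ 1 (a⁻¹ • z)) '' torus r) ≤ _
  rw [e1, Measure.hausdorffMeasure_smul₀ (Nat.cast_nonneg n) ha0.ne']
  have e2 : (‖a‖₊ ^ (n : ℝ)) • μH[(n : ℝ)] (φ 1 '' torus fun j => a⁻¹ * r j) =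
      ENNReal.ofReal (a ^ n) * μH[(n : ℝ)] (φ 1 '' torus fun j => a⁻¹ * r j) := by
    rw [ENNReal.smul_def, smul_eq_mul]
    congr 1
    rw [ENNReal.ofReal]
    congr 1
    ext
    show (‖a‖₊ ^ (n : ℝ) : ℝ≥0) = ((a ^ n).toNNReal : ℝ)
    rw [NNReal.rpow_natCast, Real.coe_toNNReal _ (by positivity)]
    simp [abs_of_pos ha0]
  rw [e2]
  refine (mul_le_mul_right h2 _).trans ?_
  rw [← ENNReal.ofReal_mul (by positivity)]
  apply ENNReal.ofReal_le_ofReal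
  apply le_of_eq
  have e3 : ∏ j, (2 * (a⁻¹ * r j)) = a⁻¹ ^ n * ∏ j, (2 * r j) := by
    have : ∀ j, 2 * (a⁻¹ * r j) = a⁻¹ * (2 * r j) := fun j => by ring
    rw [Finset.prod_congr rfl fun j _ => this j, Finset.prod_mul_distrib, Finset.prod_const,
      Finset.card_univ, Fintype.card_fin]
  have e4 : 1 / (a⁻¹ * r (i 1)) = r (i 0) / r (i 1) := by
    rw [← ha]
    have := (hr (i 1)).ne'
    field_simp
  have e5 : a ^ n * a⁻¹ ^ n = 1 := by
    rw [← mul_pow, mul_inv_cancel₀ ha0.ne', one_pow]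
  rw [e3, e4]
  calc _ = (a ^ n * a⁻¹ ^ n) * (2 * (18 * n * Real.pi) ^ n * (r (i 0) / r (i 1)) ^ ((1 : ℝ) / 3) *
          ∏ j, (2 * r j)) := by ring
    _ = _ := by rw [e5, one_mul]

end Pool.Agent.KS6_29.OH
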