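import Pool.Agent.KS6_29.OH.Isotopy

/-!
# Volumes of the product torus and of the moved torus
-/

set_option autoImplicit false

open Set Metric MeasureTheory
open scoped ContDiff ComplexConjugate Topology NNReal ENNReal

noncomputable section

namespace Pool.Agent.KS6_29.OH

open Pool.Agent.H275R3

variable {n : ℕ}

lemma norm_le_sum (z : EuclideanSpace ℂ (Fin n)) : ‖z‖ ≤ ∑ j, ‖z j‖ := by
  calc ‖z‖ = ‖∑ j, EuclideanSpace.single j (z j)‖ := by
        congr 1
        ext k
        rw [WithLp.ofLp_sum, Finset.sum_apply, Finset.sum_eq_single k]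
        · simp
        · intro b _ hb
          simp [hb.symm]
        · simp
    _ ≤ ∑ j, ‖EuclideanSpace.single j (z j)‖ := norm_sum_le _ _
    _ = ∑ j, ‖z j‖ := Finset.sum_congr rfl fun j _ => PiLp.norm_single _ _ _ _

/-- lower bound for the volume of a product torus -/
lemma torus_lower {r : Fin n → ℝ} (hr : ∀ j, 0 ≤ r j) :
    ENNReal.ofReal (∏ j, (2 * r j)) ≤ μH[(n : ℝ)] (torus r) := by
  let π : EuclideanSpace ℂ (Fin n) → (Fin n → ℝ) := fun z i => (z i).re
  have hπ : LipschitzWith 1 π := by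
    refine LipschitzWith.of_dist_le_mul fun z z' => ?_
    rw [NNReal.coe_one, one_mul, dist_pi_le_iff dist_nonneg]
    intro i
    rw [Real.dist_eq, dist_eq_norm]
    calc |(z i).re - (z' i).re| = |((z - z') i).re| := by simp
      _ ≤ ‖(z - z') i‖ := Complex.abs_re_le_norm _
      _ ≤ ‖z - z'‖ := PiLp.norm_apply_le _ _
  have h1 := hπ.hausdorffMeasure_image_le (d := (n : ℝ)) (by positivity) (torus r)
  rw [ENNReal.coe_one, ENNReal.one_rpow, one_mul] at h1
  refine le_trans ?_ h1
  have h2 : Icc (fun j => -r j) r ⊆ π '' torus r := by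
    rintro s ⟨hs1, hs2⟩
    refine ⟨WithLp.toLp 2 fun j => (s j : ℂ) + √(r j ^ 2 - s j ^ 2) * Complex.I, fun j => ?_, ?_⟩
    · show ‖(s j : ℂ) + √(r j ^ 2 - s j ^ 2) * Complex.I‖ = r j
      have h3 : 0 ≤ r j ^ 2 - s j ^ 2 := by nlinarith [hs1 j, hs2 j, hr j]
      have h4 : ‖(s j : ℂ) + √(r j ^ 2 - s j ^ 2) * Complex.I‖ ^ 2 = r j ^ 2 := by
        rw [← Complex.normSq_eq_norm_sq, Complex.normSq_add_mul_I, Real.sq_sqrt h3]; ring
      exact (sq_eq_sq₀ (norm_nonneg _) (hr j)).1 h4
    · funext j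
      simp [π]
  refine le_trans ?_ (measure_mono h2)
  have h3 : (n : ℝ) = ((Fintype.card (Fin n) : ℕ) : ℝ) := by simp
  rw [h3, hausdorffMeasure_pi_real, Real.volume_Icc_pi,
    ENNReal.ofReal_prod_of_nonneg fun j _ => by have := hr j; positivity]
  refine le_of_eq (Finset.prod_congr rfl fun j _ => ?_)
  congr 1
  ring

/-- parametrisation of the moved torus -/
def Par (N : ℝ) (i : Fin 3 → Fin n) (r : Fin n → ℝ) (s : Fin n → ℝ) : EuclideanSpace ℂ (Fin n) :=
  WithLp.toLp 2 fun j =>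
    if j = i 0 then Psi N (fun k => s (i k)) 0
    else if j = i 1 then Psi N (fun k => s (i k)) 1
    else if j = i 2 then Psi N (fun k => s (i k)) 2
    else (r j : ℂ) * Complex.exp (Complex.I * ((s j / r j : ℝ) : ℂ))

lemma Par_lip {N : ℝ} (hN : 10 ≤ N) (i : Fin 3 → Fin n) {r : Fin n → ℝ} (hr : ∀ j, 0 < r j) :
    LipschitzWith (18 * n) (Par N i r) := by
  refine LipschitzWith.of_dist_le_mul fun s s' => ?_
  set d := dist s s' with hd
  have hd0 : 0 ≤ d := dist_nonneg
  have hc : ∀ i, |s i - s' i| ≤ d := fun i => by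
    rw [← Real.dist_eq]; exact dist_le_pi_dist s s' i
  have h3 : ‖Psi N (fun k => s (i k)) - Psi N (fun k => s' (i k))‖ ≤ 18 * d := by
    rw [← dist_eq_norm]
    refine ((Psi_lip hN).dist_le_mul _ _).trans ?_
    push_cast
    refine mul_le_mul_of_nonneg_left ?_ (by norm_num)
    rw [dist_pi_le_iff hd0]
    intro k
    rw [Real.dist_eq]
    exact hc _
  have h4 : ∀ k : Fin 3, ‖Psi N (fun k => s (i k)) k - Psi N (fun k => s' (i k)) k‖ ≤ 18 * d :=
    fun k => by
      have := PiLp.norm_apply_le (Psi N (fun k => s (i k)) - Psi N (fun k => s' (i k))) k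
      exact le_trans this h3
  rw [dist_eq_norm]
  refine (norm_le_sum _).trans ?_
  have h5 : ∀ j, ‖(Par N i r s - Par N i r s') j‖ ≤ 18 * d := by
    intro j
    show ‖Par N i r s j - Par N i r s' j‖ ≤ 18 * d
    simp only [Par]
    split_ifs
    · exact h4 0
    · exact h4 1
    · exact h4 2
    · rw [← mul_sub, norm_mul, Complex.norm_real, Real.norm_eq_abs, abs_of_pos (hr j)]
      have h6 := exp_lip (s j / r j) (s' j / r j)
      have h7 : |s j / r j - s' j / r j| = |s j - s' j| / r j := by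
        rw [← sub_div, abs_div, abs_of_pos (hr j)]
      calc _ ≤ r j * (|s j - s' j| / r j) := by
            rw [← h7]
            exact mul_le_mul_of_nonneg_left h6 (hr j).le
        _ = |s j - s' j| := by field_simp [(hr j).ne']
        _ ≤ 18 * d := by have := hc j; linarith
  refine (Finset.sum_le_card_nsmul _ _ _ fun j _ => h5 j).trans ?_
  simp
  linarith

/-- the box of parameters -/
def cc (N : ℝ) (i : Fin 3 → Fin n) (r : Fin n → ℝ) (j : Fin n) : ℝ :=
  if j = i 0 then N ^ 3 else if j = i 1 then N else if j = i 2 then N else r j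

lemma prod_cc {N : ℝ} {i : Fin 3 → Fin n} (hi : Function.Injective i)
    {r : Fin n → ℝ} (hr : ∀ j, 0 < r j) :
    ∏ j, cc N i r j = N ^ 5 / (r (i 0) * r (i 1) * r (i 2)) * ∏ j, r j := by
  have h01 : i 0 ≠ i 1 := fun h => absurd (hi h) (by decide)
  have h02 : i 0 ≠ i 2 := fun h => absurd (hi h) (by decide)
  have h12 : i 1 ≠ i 2 := fun h => absurd (hi h) (by decide)
  have h1 : ∏ j, cc N i r j / r j = N ^ 5 / (r (i 0) * r (i 1) * r (i 2)) := by
    rw [← Finset.prod_subset (Finset.subset_univ ({i 0, i 1, i 2} : Finset (Fin n)))]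
    · rw [Finset.prod_insert (by simp [h01, h02]), Finset.prod_insert (by simp [h12]),
        Finset.prod_singleton]
      simp only [cc, if_true, if_neg h01.symm, if_neg h02.symm, if_neg h12.symm]
      have a0 := (hr (i 0)).ne'
      have a1 := (hr (i 1)).ne'
      have a2 := (hr (i 2)).ne'
      field_simp
    · intro j _ hj
      simp only [Finset.mem_insert, Finset.mem_singleton, not_or] at hj
      simp only [cc, if_neg hj.1, if_neg hj.2.1, if_neg hj.2.2]
      exact div_self (hr j).ne'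
  rw [Finset.prod_div_distrib] at h1
  have h2 : ∏ j, r j ≠ 0 := Finset.prod_ne_zero_iff.2 fun j _ => (hr j).ne'
  rw [div_eq_iff h2] at h1
  exact h1

/-- upper bound for the volume of the moved torus -/
lemma moved_upper {N : ℝ} (hN : 10 ≤ N) {i : Fin 3 → Fin n} (hi : Function.Injective i)
    {r : Fin n → ℝ} (hr : ∀ j, 0 < r j) :
    μH[(n : ℝ)] {y : EuclideanSpace ℂ (Fin n) | (∃ w u1 u2 : ℂ, ‖w‖ = 1 ∧ ‖u1‖ = 1 ∧ ‖u2‖ = 1 ∧
        P i y = gam N w u1 u2 1) ∧ ∀ j, (∀ k, j ≠ i k) → ‖y j‖ = r j} ≤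
      ENNReal.ofReal ((18 * n * Real.pi) ^ n * (N ^ 5 / (r (i 0) * r (i 1) * r (i 2))) *
        ∏ j, (2 * r j)) := by
  have hN0 : 0 < N := by linarith
  have hN3 : 0 < N ^ 3 := by positivity
  have hpi := Real.pi_pos
  have h01 : i 0 ≠ i 1 := fun h => absurd (hi h) (by decide)
  have h02 : i 0 ≠ i 2 := fun h => absurd (hi h) (by decide)
  have h12 : i 1 ≠ i 2 := fun h => absurd (hi h) (by decide)
  have hcc : ∀ j, 0 < cc N i r j := by
    intro j
    unfold cc
    split_ifs
    · exact hN3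
    · exact hN0
    · exact hN0
    · exact hr j
  set B : Set (Fin n → ℝ) := Icc (fun j => -(Real.pi * cc N i r j)) (fun j => Real.pi * cc N i r j)
    with hB
  have hsub : {y : EuclideanSpace ℂ (Fin n) | (∃ w u1 u2 : ℂ, ‖w‖ = 1 ∧ ‖u1‖ = 1 ∧ ‖u2‖ = 1 ∧
        P i y = gam N w u1 u2 1) ∧ ∀ j, (∀ k, j ≠ i k) → ‖y j‖ = r j} ⊆ Par N i r '' B := by
    rintro y ⟨⟨w, u1, u2, hw, h1, h2, hy⟩, hy'⟩
    obtain ⟨φ, hφ, ew⟩ := exists_arg w hw
    obtain ⟨θ, hθ, e1⟩ := exists_arg u1 h1
    obtain ⟨Θ, hΘ, e2⟩ := exists_arg (u1 * u2) (by rw [norm_mul, h1, h2, one_mul])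
    have hre : w.re = Real.cos φ := by
      rw [ew, mul_comm, Complex.exp_ofReal_mul_I_re]
    have him : w.im = Real.sin φ := by
      rw [ew, mul_comm, Complex.exp_ofReal_mul_I_im]
    have hX : Xt N w 1 = Xf N φ := by
      have h3 : Real.exp (-(Real.log N * 1)) = 1 / N := by
        rw [mul_one, Real.exp_neg, Real.exp_log hN0, one_div]
      rw [Xt, Xf, h3, x0_mul hN, hre]; ring
    have hY : Yt N w 1 = Yf N φ := by
      rw [Yt, Yf, mul_one, Real.exp_log hN0, him]
    have hR : rt N w 1 = Rf N φ := by rw [rt, Rf, hX, hY]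
    have eu2 : u2 = Complex.exp (Complex.I * ((Θ - θ : ℝ) : ℂ)) := by
      have hne : u1 ≠ 0 := by
        intro h; rw [h, norm_zero] at h1; exact zero_ne_one h1
      apply mul_left_cancel₀ hne
      rw [e2, e1, ← Complex.exp_add]
      congr 1; push_cast; ring
    choose! ψ hψ hψ' using fun (j : Fin n) (hj : ∀ k, j ≠ i k) =>
      exists_arg (y j / (r j : ℂ)) (by
        rw [norm_div, hy' j hj, Complex.norm_real, Real.norm_eq_abs, abs_of_pos (hr j),
          div_self (hr j).ne'])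
    let s : Fin n → ℝ := fun j => if j = i 0 then Θ * N ^ 3 else if j = i 1 then θ * N
      else if j = i 2 then φ * N else ψ j * r j
    have s0 : s (i 0) = Θ * N ^ 3 := by simp [s]
    have s1 : s (i 1) = θ * N := by simp [s, h01.symm]
    have s2 : s (i 2) = φ * N := by simp [s, h02.symm, h12.symm]
    have hs : ∀ j, |s j| ≤ Real.pi * cc N i r j := by
      intro j
      simp only [s, cc]
      split_ifs with c0 c1 c2
      · rw [abs_mul, abs_of_pos hN3]
        exact mul_le_mul_of_nonneg_right (abs_le.2 hΘ) hN3.le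
      · rw [abs_mul, abs_of_pos hN0]
        exact mul_le_mul_of_nonneg_right (abs_le.2 hθ) hN0.le
      · rw [abs_mul, abs_of_pos hN0]
        exact mul_le_mul_of_nonneg_right (abs_le.2 hφ) hN0.le
      · rw [abs_mul, abs_of_pos (hr j)]
        refine mul_le_mul_of_nonneg_right (abs_le.2 (hψ j fun k => ?_)) (hr j).le
        fin_cases k
        exacts [c0, c1, c2]
    have hPsi : Psi N (fun k => s (i k)) = gam N w u1 u2 1 := by
      have i0 : s (i 0) / N ^ 3 = Θ := by rw [s0]; field_simp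
      have i1 : s (i 1) / N = θ := by rw [s1]; field_simp
      have i2 : s (i 2) / N = φ := by rw [s2]; field_simp
      rw [Psi, i0, i1, i2, gam, hX, hY, hR, mul_assoc _ u1 u2, e2, ← eu2, ← e1]
    refine ⟨s, ⟨fun j => (abs_le.1 (hs j)).1, fun j => (abs_le.1 (hs j)).2⟩, ?_⟩
    ext j
    have hyk : ∀ k, y (i k) = gam N w u1 u2 1 k := fun k => by rw [← hy, P_apply]
    show (if j = i 0 then Psi N (fun k => s (i k)) 0
      else if j = i 1 then Psi N (fun k => s (i k)) 1
      else if j = i 2 then Psi N (fun k => s (i k)) 2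
      else (r j : ℂ) * Complex.exp (Complex.I * ((s j / r j : ℝ) : ℂ))) = y j
    split_ifs with c0 c1 c2
    · rw [c0, hPsi, hyk]
    · rw [c1, hPsi, hyk]
    · rw [c2, hPsi, hyk]
    · have hj : ∀ k, j ≠ i k := fun k => by
        fin_cases k
        exacts [c0, c1, c2]
      have h5 : s j / r j = ψ j := by
        simp only [s, if_neg c0, if_neg c1, if_neg c2]
        field_simp [(hr j).ne']
      rw [h5, ← hψ' j hj]
      have : (r j : ℂ) ≠ 0 := by exact_mod_cast (hr j).ne'
      field_simp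
  refine (measure_mono hsub).trans ?_
  refine ((Par_lip hN i hr).hausdorffMeasure_image_le (d := (n : ℝ)) (by positivity) B).trans ?_
  have h3 : (n : ℝ) = ((Fintype.card (Fin n) : ℕ) : ℝ) := by simp
  have h4 : μH[(n : ℝ)] B = ENNReal.ofReal (∏ j, (2 * Real.pi * cc N i r j)) := by
    rw [h3, hausdorffMeasure_pi_real, hB, Real.volume_Icc_pi,
      ENNReal.ofReal_prod_of_nonneg fun j _ => by have := hcc j; positivity]
    refine Finset.prod_congr rfl fun j _ => ?_
    congr 1
    ring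
  have h18 : ((18 * (n : ℝ≥0) : ℝ≥0) : ℝ≥0∞) ^ (n : ℝ) = ENNReal.ofReal ((18 * n) ^ n) := by
    rw [ENNReal.rpow_natCast, ENNReal.ofReal_pow (by positivity)]
    congr 1
    rw [ENNReal.ofReal]
    congr 1
    ext
    simp
  rw [h4, h18, ← ENNReal.ofReal_mul (by positivity)]
  apply ENNReal.ofReal_le_ofReal
  apply le_of_eq
  have e1 : ∏ j, (2 * r j) = 2 ^ n * ∏ j, r j := by
    rw [Finset.prod_mul_distrib, Finset.prod_const, Finset.card_univ, Fintype.card_fin]
  have e2 : ∏ j, (2 * Real.pi * cc N i r j) = (2 * Real.pi) ^ n * ∏ j, cc N i r j := by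
    rw [Finset.prod_mul_distrib, Finset.prod_const, Finset.card_univ, Fintype.card_fin]
  rw [e1, e2, prod_cc hi hr]
  ring

end Pool.Agent.KS6_29.OH
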